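import Pool.Agent.K1H15.SF.Solv

/-!
# Lisse sheaves with virtually solvable monodromy along the fibres
-/

set_option autoImplicit false
set_option linter.unusedSectionVars false

open Filter Topology Module TensorProduct

namespace Pool.Agent.K1H15.SF

open Pool.Agent.K1H13.GO Pool.Agent.K1H12.RP

section step

variable {E : Type} [NormedField E] [IsAlgClosed E] {P : Type} [Group P] [TopologicalSpace P]
  [IsTopologicalGroup P] [CompactSpace P] [TotallyDisconnectedSpace P]
  {H : Subgroup P} {A : Type} [AddCommGroup A] [Module E A] [FiniteDimensional E A]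
  {ρ₁ : Representation E H A}

/-- A normal subgroup with commuting image acts trivially after passing to an open subgroup. -/
theorem trivial_of_comm (hH : IsOpen (H : Set P)) (hc : IsContinuousRep ρ₁) {N : Subgroup P}
    (hs : StronglyIrreducibleOn N ρ₁) (hdet : ∀ h, LinearMap.det (ρ₁ h) = 1)
    {M : Subgroup P} [hM : M.Normal]
    (hcomm : ∀ x y : H, (x : P) ∈ M → (y : P) ∈ M → ρ₁ x * ρ₁ y = ρ₁ y * ρ₁ x) :
    ∃ L : Subgroup P, IsOpen (L : Set P) ∧ L.Normal ∧ ∀ x : H, (x : P) ∈ M → (x : P) ∈ L →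
      ρ₁ x = 1 := by
  classical
  have hnt : Nontrivial A := hs.1
  have hsc := scalar_of_comm hH hc hs hcomm
  obtain ⟨v, hv0⟩ := exists_ne (0 : A)
  obtain ⟨l, hl⟩ := exists_dual_one (E := E) hv0
  set n := finrank E A with hn
  have hn0 : 0 < n := finrank_pos
  have hfin : Set.Finite {c : E | c ^ n = 1} := by
    refine (Polynomial.nthRootsFinset n (1 : E)).finite_toSet.subset fun c hc => ?_
    exact Finset.mem_coe.2 ((Polynomial.mem_nthRootsFinset hn0 1).2 hc)
  have hopen : IsOpen ({c : E | c ^ n = 1} \ {1})ᶜ :=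
    (hfin.subset Set.diff_subset).isClosed.isOpen_compl
  have hlim : Tendsto (fun h : H => l (ρ₁ h v)) (𝓝 1) (𝓝 1) := by
    have h1 := (hc l v).tendsto 1
    rw [map_one, Module.End.one_apply, hl] at h1
    exact h1
  have hmem : ∀ᶠ h in 𝓝 (1 : H), l (ρ₁ h v) ∈ ({c : E | c ^ n = 1} \ {1})ᶜ :=
    hlim (hopen.mem_nhds fun h => h.2 rfl)
  obtain ⟨L, hLo, hLn, hL⟩ := small (eventually_sub hH hmem)
  refine ⟨L, hLo, hLn, fun x hx hxL => ?_⟩
  obtain ⟨c, hcx⟩ := hsc x hx
  have h1 : l (ρ₁ x v) = c := by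
    rw [hcx, LinearMap.smul_apply, Module.End.one_apply, map_smul, hl, smul_eq_mul, mul_one]
  have h2 : c ^ n = 1 := by
    have := hdet x
    rw [hcx, LinearMap.det_smul] at this
    have h3 : LinearMap.det (1 : A →ₗ[E] A) = 1 := map_one _
    rwa [h3, mul_one] at this
  obtain ⟨_, h3⟩ := hL x hxL
  have h4 : c = 1 := by
    by_contra hne
    apply h3
    change l (ρ₁ x v) ∈ _
    rw [h1]
    exact ⟨h2, hne⟩
  rw [hcx, h4, one_smul]

omit [TopologicalSpace P] [IsTopologicalGroup P] [CompactSpace P] [TotallyDisconnectedSpace P]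
  [IsAlgClosed E] in
theorem trivial_of_simple [TopologicalSpace P] {N : Subgroup P} (hs : StronglyIrreducibleOn N ρ₁)
    (hdet : ∀ h, LinearMap.det (ρ₁ h) = 1) {L : Subgroup P} (hL : IsOpen (L : Set P))
    (h : ∀ x : H, (x : P) ∈ N → (x : P) ∈ L → ρ₁ x = 1) : ∀ x, ρ₁ x = 1 := by
  have hnt : Nontrivial A := hs.1
  obtain ⟨v, hv0⟩ := exists_ne (0 : A)
  have htop : Submodule.span E {v} = (⊤ : Submodule E A) := by
    refine (hs.2 L hL (Submodule.span E {v}) fun x hx hxL u hu => ?_).resolve_left ?_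
    · rw [h x hx hxL]
      exact hu
    · rw [Submodule.span_singleton_eq_bot]
      exact hv0
  have hfr : finrank E A = 1 := by
    rw [← finrank_top, ← htop]
    exact finrank_span_singleton hv0
  intro x
  obtain ⟨c, hc⟩ : ∃ c : E, c • v = ρ₁ x v := by
    rw [← Submodule.mem_span_singleton, htop]
    trivial
  have hx : ρ₁ x = c • 1 := by
    refine LinearMap.ext fun u => ?_
    obtain ⟨d, rfl⟩ : ∃ d : E, d • v = u := by
      rw [← Submodule.mem_span_singleton, htop]
      trivial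
    rw [map_smul, ← hc, LinearMap.smul_apply, Module.End.one_apply, smul_comm]
  have h2 : c = 1 := by
    have := hdet x
    rw [hx, LinearMap.det_smul, hfr, pow_one] at this
    have h3 : LinearMap.det (1 : A →ₗ[E] A) = 1 := map_one _
    rwa [h3, mul_one] at this
  rw [hx, h2, one_smul]

/-- A strongly irreducible representation with trivial determinant and virtually solvable image is
trivial. -/
theorem trivial_of_solvable (hH : IsOpen (H : Set P)) (hc : IsContinuousRep ρ₁) {N : Subgroup P}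
    [hN : N.Normal] (hs : StronglyIrreducibleOn N ρ₁) (hdet : ∀ h, LinearMap.det (ρ₁ h) = 1)
    {L : Subgroup P} (hL : IsOpen (L : Set P)) {d : ℕ}
    (h : ∀ x : H, (x : P) ∈ derived (N ⊓ L) d → ρ₁ x = 1) : ∀ x, ρ₁ x = 1 := by
  have key : ∀ i, (∃ L : Subgroup P, IsOpen (L : Set P) ∧ L.Normal ∧ L ≤ H ∧
      ∀ x : H, (x : P) ∈ derived (N ⊓ L) i → ρ₁ x = 1) → ∀ x, ρ₁ x = 1 := by
    intro i
    induction i with
    | zero =>
      rintro ⟨L, hLo, _, _, h⟩
      exact trivial_of_simple hs hdet hLo fun x hx hxL => h x ⟨hx, hxL⟩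
    | succ i ih =>
      rintro ⟨L, hLo, hLn, hLH, h⟩
      apply ih
      have hn : (N ⊓ L).Normal := inferInstance
      have hM : (derived (N ⊓ L) i).Normal := derived_normal _ i
      have hMH : derived (N ⊓ L) i ≤ H := (derived_le _ _).trans (inf_le_right.trans hLH)
      obtain ⟨L', hLo', hLn', h'⟩ := trivial_of_comm hH hc hs hdet (M := derived (N ⊓ L) i)
        fun x y hx hy => by
          have h1 : ρ₁ (x * y * x⁻¹ * y⁻¹) = 1 :=
            h _ (Subgroup.commutator_mem_commutator hx hy)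
          have h2 : x * y = (x * y * x⁻¹ * y⁻¹) * (y * x) := by group
          rw [← map_mul, h2, map_mul, h1, one_mul, map_mul]
      refine ⟨L ⊓ L', hLo.inter hLo', inferInstance, inf_le_left.trans hLH, fun x hx => ?_⟩
      refine h' x (derived_mono (inf_le_inf_left N inf_le_left) i hx) ?_
      exact (derived_le _ _ hx).2.2
  obtain ⟨L', hLo', hLn', hL'⟩ := small (P := P) (p := fun x => x ∈ L ⊓ H)
    ((hL.inter hH).mem_nhds ⟨L.one_mem, H.one_mem⟩)
  refine key d ⟨L', hLo', hLn', fun x hx => (hL' x hx).2, fun x hx => h x ?_⟩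
  exact derived_mono (inf_le_inf_left N fun y hy => (hL' y hy).1) d hx

end step

variable {E : Type} [NormedField E] [IsAlgClosed E]
    {W P : Type} [Group W] [TopologicalSpace W] [IsTopologicalGroup W] [T2Space W]
    [Group P] [TopologicalSpace P] [IsTopologicalGroup P] [CompactSpace P]
    [TotallyDisconnectedSpace P]
    {V : Type} [AddCommGroup V] [Module E V] [FiniteDimensional E V]

/-- The theorem. -/
theorem main (φ : P →* W) (hφ : Continuous φ) (hfin : φ.range.FiniteIndex)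
    (N : Subgroup P) [N.Normal]
    (ρ : Representation E W V) (hρ : IsContinuousRep ρ) (hirr : ρ.IsIrreducible)
    (hdet : FiniteDeterminant ρ)
    (hsolv : ∃ L : Subgroup P, IsOpen (L : Set P) ∧ ∃ d : ℕ, ∀ x ∈ derived (N ⊓ L) d, ρ (φ x) = 1)
    (geom : Subgroup W) (hgeom : ∀ x y : W, x * y * x⁻¹ * y⁻¹ ∈ geom)
    (hchar : CharactersFinite E geom) :
    ∃ (H : Subgroup P) (M : Type) (_ : AddCommGroup M) (_ : Module E M)
      (γ : Representation E H M) (T : M →ₗ[E] V),
      IsOpen (H : Set P) ∧ FiniteDimensional E M ∧ IsContinuousRep γ ∧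
      StronglyIrreducibleOn ⊤ γ ∧ TrivialOn N γ ∧ FiniteDeterminant γ ∧
      Function.Injective T ∧ (∀ (h : H) m, T (γ h m) = ρ (φ h) (T m)) ∧
      (Function.Surjective φ → ∃ L : Subgroup P, IsOpen (L : Set P) ∧
        ∀ x ∈ N ⊓ L, ρ (φ x) = 1) := by
  classical
  obtain ⟨H, A₁, A₂, M, _, _, _, _, _, _, ρ₁, ρ₂, γ, T, hH, hA₁, hA₂, hM, hc₁, hc₂, hc, hT, hT',
    hd₁, hd₂, ht₁, ht₂, hsc, hi₁, hi₂, hi, hdet'⟩ :=
      decomposition φ hφ hfin N ⊥ (fun x _ y hy => by
        rw [Subgroup.mem_bot.1 hy, mul_one, one_mul]) ρ hρ hirr hdet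
  obtain ⟨hγ, hγd⟩ := hdet' geom hgeom hchar
  have hnt₁ : Nontrivial A₁ := hi₁.1
  have hnt₂ : Nontrivial A₂ := hi₂.1
  have hntM : Nontrivial M := hi.1
  obtain ⟨a₂, ha₂⟩ := exists_ne (0 : A₂)
  obtain ⟨m₀, hm₀⟩ := exists_ne (0 : M)
  obtain ⟨l₂, hl₂⟩ := exists_dual_one (E := E) ha₂
  obtain ⟨lm, hlm⟩ := exists_dual_one (E := E) hm₀
  -- `ρ₂` is trivial
  have hρ₂ : ∀ x, ρ₂ x = 1 := by
    refine trivial_of_simple hi₂ hd₂ (L := ⊤) isOpen_univ fun x hx _ => ?_
    have hx1 : x = 1 := Subtype.ext (Subgroup.mem_bot.1 hx)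
    rw [hx1, map_one]
  -- `ρ₁` is trivial
  have hρ₁ : ∀ x, ρ₁ x = 1 := by
    obtain ⟨L, hLo, d, hLd⟩ := hsolv
    refine trivial_of_solvable hH hc₁ hi₁ hd₁ hLo (d := d) fun x hx => ?_
    have hxN : (x : P) ∈ N := ((derived_le _ _) hx).1
    have h1 := hLd _ hx
    refine LinearMap.ext fun a₁ => ?_
    have h2 := hT' x a₁ a₂ m₀
    rw [h1, Module.End.one_apply, ht₂ x hxN, hγ x (Or.inl hxN), Module.End.one_apply,
      Module.End.one_apply] at h2
    have h3 := hT h2
    -- contract with functionals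
    have h4 := congrArg ((TensorProduct.rid E A₁).toLinearMap ∘ₗ (TensorProduct.map LinearMap.id
      (LinearMap.mul' E E ∘ₗ TensorProduct.map l₂ lm))) h3
    simpa [hl₂, hlm] using h4
  obtain ⟨a₁, ha₁⟩ := exists_ne (0 : A₁)
  obtain ⟨l₁, hl₁⟩ := exists_dual_one (E := E) ha₁
  let T' : M →ₗ[E] V := T ∘ₗ (TensorProduct.mk E A₁ (A₂ ⊗[E] M) a₁) ∘ₗ (TensorProduct.mk E A₂ M a₂)
  have hT'' : ∀ m, T' m = T (a₁ ⊗ₜ (a₂ ⊗ₜ m)) := fun m => rfl
  have hT'inj : Function.Injective T' := by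
    intro m m' hm
    rw [hT'', hT''] at hm
    have h3 := hT hm
    have h4 := congrArg ((TensorProduct.lid E M).toLinearMap ∘ₗ (TensorProduct.map l₁
      ((TensorProduct.lid E M).toLinearMap ∘ₗ TensorProduct.map l₂ LinearMap.id))) h3
    simpa [hl₁, hl₂] using h4
  have hT'eq : ∀ (h : H) m, T' (γ h m) = ρ (φ h) (T' m) := by
    intro h m
    have h1 := hT' h a₁ a₂ m
    rw [hρ₁, hρ₂, Module.End.one_apply, Module.End.one_apply] at h1
    exact h1
  refine ⟨H, M, _, _, γ, T', hH, hM, hc, hi, fun h hh => hγ h (Or.inl hh), hγd, hT'inj, hT'eq,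
    fun hsurj => ?_⟩
  -- finite monodromy along the fibres
  obtain ⟨L, hLo, hLn, hL⟩ := small (P := P) (p := fun x => x ∈ H) (hH.mem_nhds H.one_mem)
  refine ⟨L, hLo, ?_⟩
  let U : Submodule E V :=
    { carrier := {u | ∀ x ∈ N ⊓ L, ρ (φ x) u = u}
      add_mem' := fun {a b} ha hb x hx => by rw [map_add, ha x hx, hb x hx]
      zero_mem' := fun x _ => by rw [map_zero]
      smul_mem' := fun c a ha x hx => by rw [map_smul, ha x hx] }
  have hUst : ∀ w : W, ∀ u ∈ U, ρ w u ∈ U := by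
    intro w u hu x hx
    obtain ⟨p, rfl⟩ := hsurj w
    have hn : (N ⊓ L).Normal := inferInstance
    have h1 : p⁻¹ * x * p ∈ N ⊓ L := by
      have := hn.conj_mem x hx p⁻¹
      rwa [inv_inv] at this
    have h2 : ρ (φ x) (ρ (φ p) u) = ρ (φ p) (ρ (φ (p⁻¹ * x * p)) u) := by
      rw [← Module.End.mul_apply, ← Module.End.mul_apply, ← map_mul, ← map_mul, ← map_mul,
        ← map_mul]
      congr 3
      group
    rw [h2, hu _ h1]
  have hmem : T' m₀ ∈ U := by
    intro x hx
    have hxH : x ∈ H := hL x hx.2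
    have h1 := hT'eq ⟨x, hxH⟩ m₀
    rw [hγ ⟨x, hxH⟩ (Or.inl hx.1), Module.End.one_apply] at h1
    exact h1.symm
  have hU : U = ⊤ := by
    rcases (ir_top hirr).2.2 U le_top (fun w _ u hu => hUst w u hu) with h | h
    · exfalso
      rw [h] at hmem
      have h1 := (Submodule.mem_bot E).1 hmem
      exact hm₀ (hT'inj (by rw [h1, map_zero]))
    · exact h
  intro x hx
  refine LinearMap.ext fun u => ?_
  have : u ∈ U := by rw [hU]; trivial
  exact this x hx

end Pool.Agent.K1H15.SF
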