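import Pool.Agent.K1H12.RP.Main

/-!
# Representations with solvable image on a normal subgroup
-/

set_option autoImplicit false
set_option linter.unusedSectionVars false

open Filter Topology Module

namespace Pool.Agent.K1H15.SF

open Pool.Agent.K1H13.GO Pool.Agent.K1H12.RP

/-- The iterated commutator subgroups of the subgroup `S`. -/
def derived {P : Type} [Group P] (S : Subgroup P) : ℕ → Subgroup P
  | 0 => S
  | i + 1 => ⁅derived S i, derived S i⁆

section groups

variable {P : Type} [Group P]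

theorem derived_normal (S : Subgroup P) [hS : S.Normal] (i : ℕ) : (derived S i).Normal := by
  induction i with
  | zero => exact hS
  | succ i ih => exact Subgroup.commutator_normal _ _

theorem derived_mono {S S' : Subgroup P} (h : S ≤ S') (i : ℕ) : derived S i ≤ derived S' i := by
  induction i with
  | zero => exact h
  | succ i ih => exact Subgroup.commutator_mono ih ih

theorem derived_le (S : Subgroup P) (i : ℕ) : derived S i ≤ S := by
  induction i with
  | zero => exact le_rfl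
  | succ i ih =>
    refine le_trans (Subgroup.commutator_le.2 fun a ha b hb => ?_) ih
    exact (derived S i).mul_mem ((derived S i).mul_mem ((derived S i).mul_mem ha hb)
      ((derived S i).inv_mem ha)) ((derived S i).inv_mem hb)

end groups

variable {E : Type} [NormedField E] [IsAlgClosed E] {P : Type} [Group P] [TopologicalSpace P]
  [IsTopologicalGroup P] [CompactSpace P] [TotallyDisconnectedSpace P]
  {H : Subgroup P} {A : Type} [AddCommGroup A] [Module E A] [FiniteDimensional E A]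
  {ρ₁ : Representation E H A}

omit [IsAlgClosed E] [CompactSpace P] [TotallyDisconnectedSpace P] in
/-- Conditions which hold near the identity of the open subgroup `H` hold near the identity of `P`. -/
theorem eventually_sub (hH : IsOpen (H : Set P)) {p : H → Prop} (h : ∀ᶠ x in 𝓝 (1 : H), p x) :
    ∀ᶠ x in 𝓝 (1 : P), ∃ hx : x ∈ H, p ⟨x, hx⟩ := by
  have h1 : (Subtype.val '' {x : H | p x}) ∈ 𝓝 ((1 : H) : P) :=
    (hH.isOpenMap_subtype_val).image_mem_nhds h
  rw [Subgroup.coe_one] at h1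
  filter_upwards [h1] with x hx
  obtain ⟨y, hy, rfl⟩ := hx
  exact ⟨y.2, hy⟩

omit [TopologicalSpace P] [IsTopologicalGroup P] [CompactSpace P] [TotallyDisconnectedSpace P] in
/-- A common eigenvector. -/
theorem common_eigenvector [Nontrivial A] {M : Subgroup P}
    (hcomm : ∀ x y : H, (x : P) ∈ M → (y : P) ∈ M → ρ₁ x * ρ₁ y = ρ₁ y * ρ₁ x) :
    ∃ v : A, v ≠ 0 ∧ ∀ x : H, (x : P) ∈ M → ∃ c : E, ρ₁ x v = c • v := by
  classical
  obtain ⟨U, ⟨hU0, hUs⟩, hmin⟩ := (wellFounded_lt (α := Submodule E A)).has_min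
    {U : Submodule E A | U ≠ ⊥ ∧ ∀ x : H, (x : P) ∈ M → ∀ u ∈ U, ρ₁ x u ∈ U}
    ⟨⊤, top_ne_bot, fun _ _ _ _ => trivial⟩
  have key : ∀ x : H, (x : P) ∈ M → ∃ c : E, ∀ u ∈ U, ρ₁ x u = c • u := by
    intro x hx
    have hnt : Nontrivial U := Submodule.nontrivial_iff_ne_bot.2 hU0
    obtain ⟨c, hc⟩ := Module.End.exists_eigenvalue ((ρ₁ x).restrict (hUs x hx))
    obtain ⟨u, hu⟩ := hc.exists_hasEigenvector
    have hu1 : ρ₁ x u = c • (u : A) := by
      have := congrArg Subtype.val hu.apply_eq_smul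
      exact this
    have hu0 : (u : A) ≠ 0 := fun h => hu.2 (Subtype.ext h)
    let U' : Submodule E A := U ⊓ LinearMap.ker (ρ₁ x - c • LinearMap.id)
    have hU'mem : ∀ w, w ∈ U' ↔ w ∈ U ∧ ρ₁ x w = c • w := by
      intro w
      rw [Submodule.mem_inf, LinearMap.mem_ker, LinearMap.sub_apply, sub_eq_zero]
      rfl
    have hU'0 : U' ≠ ⊥ := fun h => hu0 (by
      have : (u : A) ∈ U' := (hU'mem _).2 ⟨u.2, hu1⟩
      rw [h] at this
      exact (Submodule.mem_bot E).1 this)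
    have hU's : ∀ y : H, (y : P) ∈ M → ∀ w ∈ U', ρ₁ y w ∈ U' := by
      intro y hy w hw
      obtain ⟨h1, h2⟩ := (hU'mem w).1 hw
      refine (hU'mem _).2 ⟨hUs y hy w h1, ?_⟩
      rw [← Module.End.mul_apply, hcomm x y hx hy, Module.End.mul_apply, h2, map_smul]
    have hnlt := hmin U' ⟨hU'0, hU's⟩
    have hle : U' ≤ U := inf_le_left
    have heq : U' = U := by
      by_contra hne
      exact hnlt (lt_of_le_of_ne hle hne)
    refine ⟨c, fun w hw => ?_⟩
    rw [← heq] at hw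
    exact ((hU'mem w).1 hw).2
  obtain ⟨v, hv, hv0⟩ := (Submodule.ne_bot_iff U).1 hU0
  refine ⟨v, hv0, fun x hx => ?_⟩
  obtain ⟨c, hc⟩ := key x hx
  exact ⟨c, hc v hv⟩

omit [IsAlgClosed E] [FiniteDimensional E A] in
theorem exists_dual_one {v : A} (hv : v ≠ 0) : ∃ l : Dual E A, l v = 1 := by
  by_contra hcon
  push Not at hcon
  apply hv
  rw [← Module.forall_dual_apply_eq_zero_iff E]
  intro φ
  by_contra hφ
  apply hcon ((φ v)⁻¹ • φ)
  rw [LinearMap.smul_apply, smul_eq_mul, inv_mul_cancel₀ hφ]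

/-- A normal subgroup with commuting image acts by scalars. -/
theorem scalar_of_comm (hH : IsOpen (H : Set P)) (hc : IsContinuousRep ρ₁) {N : Subgroup P}
    (hs : StronglyIrreducibleOn N ρ₁) {M : Subgroup P} [hM : M.Normal]
    (hcomm : ∀ x y : H, (x : P) ∈ M → (y : P) ∈ M → ρ₁ x * ρ₁ y = ρ₁ y * ρ₁ x) :
    ∀ x : H, (x : P) ∈ M → ∃ c : E, ρ₁ x = c • 1 := by
  classical
  have hnt : Nontrivial A := hs.1
  obtain ⟨v, hv0, hv⟩ := common_eigenvector (ρ₁ := ρ₁) hcomm
  choose! χ hχ using hv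
  obtain ⟨l, hl⟩ : ∃ l : Dual E A, l v = 1 := exists_dual_one hv0
  have hconj : ∀ h x : H, (x : P) ∈ M → ((h⁻¹ * x * h : H) : P) ∈ M := by
    intro h x hx
    have := hM.conj_mem (x : P) hx ((h : P)⁻¹)
    rw [inv_inv] at this
    exact this
  have hχl : ∀ x : H, (x : P) ∈ M → l (ρ₁ x v) = χ x := by
    intro x hx
    rw [hχ x hx, map_smul, hl, smul_eq_mul, mul_one]
  have hmove : ∀ h x : H, (x : P) ∈ M → ∀ u, ρ₁ x (ρ₁ h u) = ρ₁ h (ρ₁ (h⁻¹ * x * h) u) := by
    intro h x _ u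
    rw [← Module.End.mul_apply, ← Module.End.mul_apply, ← map_mul, ← map_mul]
    congr 2
    group
  -- finitely many operators span
  have hfg : (Submodule.span E {f : A →ₗ[E] A | ∃ x : H, (x : P) ∈ M ∧ ρ₁ x = f}).FG :=
    IsNoetherian.noetherian (R := E) _
  obtain ⟨s', hs', hspan⟩ := (Submodule.fg_span_iff_fg_span_finset_subset
    {f : A →ₗ[E] A | ∃ x : H, (x : P) ∈ M ∧ ρ₁ x = f}).1 hfg
  have hev : ∀ f ∈ s', ∀ᶠ h in 𝓝 (1 : H), ∀ x : H, (x : P) ∈ M → ρ₁ x = f →
      χ (h⁻¹ * x * h) = χ x := by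
    intro f hf
    obtain ⟨x, hx, hxf⟩ := hs' hf
    have hfin : Set.Finite {μ : E | Module.End.HasEigenvalue (ρ₁ x) μ} := Module.End.finite_hasEigenvalue _
    have hcont : Continuous fun h : H => l (ρ₁ (h⁻¹ * x * h) v) :=
      (hc l v).comp (by fun_prop)
    have hlim : Tendsto (fun h : H => l (ρ₁ (h⁻¹ * x * h) v)) (𝓝 1) (𝓝 (χ x)) := by
      have h1 := hcont.tendsto 1
      rw [inv_one, one_mul, mul_one, hχl x hx] at h1
      exact h1
    have hopen : IsOpen ({μ : E | Module.End.HasEigenvalue (ρ₁ x) μ} \ {χ x})ᶜ :=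
      (hfin.subset Set.diff_subset).isClosed.isOpen_compl
    have hmem : ∀ᶠ h in 𝓝 (1 : H), l (ρ₁ (h⁻¹ * x * h) v) ∈
        ({μ : E | Module.End.HasEigenvalue (ρ₁ x) μ} \ {χ x})ᶜ :=
      hlim (hopen.mem_nhds fun h => h.2 rfl)
    filter_upwards [hmem] with h hh y hy hyf
    have e1 : ∀ z : H, (z : P) ∈ M → ρ₁ z = f → l (ρ₁ (h⁻¹ * z * h) v) =
        l (ρ₁ (h⁻¹ * x * h) v) := by
      intro z _ hz
      rw [map_mul, map_mul, map_mul, map_mul, hz, hxf]
    have e2 : χ y = χ x := by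
      rw [← hχl y hy, ← hχl x hx, hyf, hxf]
    have e3 : χ (h⁻¹ * y * h) = l (ρ₁ (h⁻¹ * x * h) v) := by
      rw [← hχl _ (hconj h y hy), e1 y hy hyf]
    rw [e3, e2]
    have e4 : Module.End.HasEigenvalue (ρ₁ x) (l (ρ₁ (h⁻¹ * x * h) v)) := by
      rw [hχl _ (hconj h x hx)]
      refine Module.End.hasEigenvalue_of_hasEigenvector (x := ρ₁ h v) ⟨?_, ?_⟩
      · rw [Module.End.mem_eigenspace_iff, hmove h x hx, hχ _ (hconj h x hx), map_smul]
      · intro h0
        apply hv0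
        have := congrArg (ρ₁ h⁻¹) h0
        rw [map_zero, r_inv] at this
        exact this
    by_contra hne
    exact hh ⟨e4, hne⟩
  have hall : ∀ᶠ h in 𝓝 (1 : H), ∀ f ∈ s', ∀ x : H, (x : P) ∈ M → ρ₁ x = f →
      χ (h⁻¹ * x * h) = χ x := (s'.eventually_all).2 hev
  obtain ⟨L, hLo, hLn, hL⟩ := small (eventually_sub hH hall)
  have hχL : ∀ h : H, (h : P) ∈ L → ∀ x : H, (x : P) ∈ M → χ (h⁻¹ * x * h) = χ x := by
    intro h hh
    obtain ⟨_, hp⟩ := hL h hh
    -- two linear functionals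
    let f₁ : (A →ₗ[E] A) →ₗ[E] E := l ∘ₗ LinearMap.applyₗ v
    let f₂ : (A →ₗ[E] A) →ₗ[E] E := l ∘ₗ (ρ₁ h⁻¹) ∘ₗ LinearMap.applyₗ (ρ₁ h v)
    have hf₁ : ∀ f, f₁ f = l (f v) := fun f => rfl
    have hf₂ : ∀ f, f₂ f = l (ρ₁ h⁻¹ (f (ρ₁ h v))) := fun f => rfl
    have hf₂' : ∀ x : H, (x : P) ∈ M → f₂ (ρ₁ x) = χ (h⁻¹ * x * h) := by
      intro x hx
      rw [hf₂, hmove h x hx, r_inv, hχl _ (hconj h x hx)]
    have hspan' : ∀ f ∈ Submodule.span E {f : A →ₗ[E] A | ∃ x : H, (x : P) ∈ M ∧ ρ₁ x = f},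
        f₂ f = f₁ f := by
      intro f hf
      rw [hspan] at hf
      induction hf using Submodule.span_induction with
      | mem f hf =>
        obtain ⟨x, hx, hxf⟩ := hs' hf
        rw [← hxf, hf₂' x hx, hp f hf x hx hxf, hf₁, hχl x hx]
      | zero => rw [map_zero, map_zero]
      | add f g _ _ h1 h2 => rw [map_add, map_add, h1, h2]
      | smul c f _ h1 => rw [map_smul, map_smul, h1]
    intro x hx
    rw [← hf₂' x hx, hspan' _ (Submodule.subset_span ⟨x, hx, rfl⟩), hf₁, hχl x hx]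
  let W : Submodule E A :=
    { carrier := {u | ∀ x : H, (x : P) ∈ M → ρ₁ x u = χ x • u}
      add_mem' := fun {a b} ha hb x hx => by rw [map_add, ha x hx, hb x hx, smul_add]
      zero_mem' := fun x _ => by rw [map_zero, smul_zero]
      smul_mem' := fun c a ha x hx => by rw [map_smul, ha x hx, smul_comm] }
  have hW : W = ⊥ ∨ W = ⊤ := by
    refine hs.2 L hLo W fun h _ hhL u hu x hx => ?_
    rw [hmove h x hx, hu _ (hconj h x hx), map_smul, hχL h hhL x hx]
  have hW' : W = ⊤ := hW.resolve_left fun h => hv0 (by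
    have : v ∈ W := fun x hx => hχ x hx
    rw [h] at this
    exact (Submodule.mem_bot E).1 this)
  intro x hx
  refine ⟨χ x, LinearMap.ext fun u => ?_⟩
  have : u ∈ W := by rw [hW']; trivial
  exact this x hx

end Pool.Agent.K1H15.SF
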